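import Pool.Agent.helper64.QF.Spec

/-!
# PF2: the formula for the second coefficient along a Loewner flow

Project pq: (MP_b9b9c0_an), see `Pool.Agent.helper64.QF.Spec`.
-/

set_option autoImplicit false

namespace Pool.Agent.helper64.QF

open Metric MeasureTheory Set Filter Topology
open Pool.Agent.helper37.PR

variable {n : ℕ}

/-- the integrand -/
noncomputable def PF2_F (A : E n →L[ℂ] E n) (h : E n → ℝ → E n) (U V : E n) (t : ℝ) : ℂ :=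
  inner ℂ (dual A V t) (P2 (fun z => h z t) (fw A U t))

theorem PF2_fw_smul (A : E n →L[ℂ] E n) (c : ℂ) (U : E n) (t : ℝ) :
    fw A (c • U) t = c • fw A U t := by
  unfold fw
  rw [map_smul]

theorem PF2_dual_smul (A : E n →L[ℂ] E n) (c : ℂ) (V : E n) (t : ℝ) :
    dual A (c • V) t = c • dual A V t := by
  unfold dual
  rw [map_smul]

theorem PF2_F_smul (A : E n →L[ℂ] E n) (h : E n → ℝ → E n) (c : ℂ) (U V : E n) (t : ℝ) :
    PF2_F A h (c • U) V t = c ^ 2 * PF2_F A h U V t := by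
  unfold PF2_F
  rw [PF2_fw_smul, P2_smul, inner_smul_right]

theorem PF2_F_smulV (A : E n →L[ℂ] E n) (h : E n → ℝ → E n) (c : ℂ) (U V : E n) (t : ℝ) :
    PF2_F A h U (c • V) t = (starRingEnd ℂ) c * PF2_F A h U V t := by
  unfold PF2_F
  rw [PF2_dual_smul, inner_smul_left]

theorem PF2_bound (hLIN : LIN_stmt) {A : E n →L[ℂ] E n} {m κ C : ℝ} (hC : Cls A m κ C)
    {h : E n → ℝ → E n} (hh : IsHerglotz A h) (U V : E n) :
    ∀ᵐ t : ℝ, 0 ≤ t → ‖PF2_F A h U V t‖ ≤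
      (4 * ‖A‖ * C * ‖U‖ ^ 2 * ‖V‖) * Real.exp (-(2 * m - κ) * t) := by
  obtain ⟨-, -, hU, hV, -⟩ := hLIN n A m κ C hC U V
  filter_upwards [hh.cara] with t ht h0
  have hc := ht h0
  have h1 := P2_bound hc (fw A U t)
  have h2 := hU t h0
  have h3 := hV t h0
  have hA := norm_nonneg A
  have h4 : ‖fw A U t‖ ^ 2 ≤ (‖U‖ * Real.exp (-(m * t))) ^ 2 :=
    pow_le_pow_left₀ (norm_nonneg _) h2 2
  calc ‖PF2_F A h U V t‖ ≤ ‖dual A V t‖ * ‖P2 (fun z => h z t) (fw A U t)‖ :=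
        norm_inner_le_norm _ _
    _ ≤ (C * ‖V‖ * Real.exp (κ * t)) * (4 * ‖A‖ * (‖U‖ * Real.exp (-(m * t))) ^ 2) := by
        apply mul_le_mul h3 _ (norm_nonneg _) ((norm_nonneg _).trans h3)
        exact h1.trans (mul_le_mul_of_nonneg_left h4 (by positivity))
    _ = (4 * ‖A‖ * C * ‖U‖ ^ 2 * ‖V‖) * Real.exp (-(2 * m - κ) * t) := by
        rw [mul_pow, ← Real.exp_nat_mul]
        have e1 : Real.exp (-(2 * m - κ) * t) =
            Real.exp (κ * t) * Real.exp (((2 : ℕ) : ℝ) * -(m * t)) := by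
          rw [← Real.exp_add]; congr 1; push_cast; ring
        rw [e1]; ring

theorem PF2_int (hMEA : MEA_stmt) (hLIN : LIN_stmt) {A : E n →L[ℂ] E n} {m κ C : ℝ}
    (hC : Cls A m κ C) {h : E n → ℝ → E n} (hh : IsHerglotz A h) (U V : E n) :
    IntegrableOn (PF2_F A h U V) (Ioi 0) := by
  have hexp : IntegrableOn (fun t : ℝ => (4 * ‖A‖ * C * ‖U‖ ^ 2 * ‖V‖) *
      Real.exp (-(2 * m - κ) * t)) (Ioi 0) :=
    (exp_neg_integrableOn_Ioi 0 (by linarith [hC.κ2])).const_mul _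
  refine Integrable.mono' hexp (hMEA n A m κ C hC h hh U V) ?_
  filter_upwards [ae_restrict_of_ae (PF2_bound hLIN hC hh U V), ae_restrict_mem measurableSet_Ioi]
    with t h1 h2
  exact h1 (le_of_lt h2)

theorem PF2_point (hLIN : LIN_stmt) (hPLI : PLI_stmt) {A : E n →L[ℂ] E n} {m κ C : ℝ}
    (hC : Cls A m κ C) {g : E n → E n} (hc : IsCara A g) {K μ δ t : ℝ} (hK : 0 ≤ K)
    (hμ : 0 < μ) (hμm : μ ≤ m) (hδ1 : δ ≤ 3 * μ - κ) (hδ2 : δ ≤ m + μ - κ) (ht : 0 ≤ t)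
    {z w : E n} (hz : ‖z‖ ≤ 1 / 10) (V : E n)
    (hw1 : ‖w‖ ≤ ‖z‖ * Real.exp (-(μ * t)))
    (hw2 : ‖w - fw A z t‖ ≤ K * ‖z‖ ^ 2 * Real.exp (-(m * t))) :
    |(inner ℂ (dual A V t) (-(g w)) : ℂ).re +
      (inner ℂ (ContinuousLinearMap.adjoint A (dual A V t)) w : ℂ).re +
      (inner ℂ (dual A V t) (P2 g (fw A z t)) : ℂ).re| ≤
      (C * ‖A‖ * (768 + 8 * K) * ‖V‖ * ‖z‖ ^ 3) * Real.exp (-δ * t) := by
  obtain ⟨-, -, hU, hV, -⟩ := hLIN n A m κ C hC z V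
  have hA := norm_nonneg A
  have hV1 := hV t ht
  have hU1 := hU t ht
  have hC1 := hC.C1
  have hz0 := norm_nonneg z
  have hVn := norm_nonneg V
  have hwn : ‖w‖ ≤ ‖z‖ := by
    refine hw1.trans ?_
    have : Real.exp (-(μ * t)) ≤ 1 := by
      rw [Real.exp_le_one_iff]
      have := mul_nonneg hμ.le ht
      linarith
    calc ‖z‖ * Real.exp (-(μ * t)) ≤ ‖z‖ * 1 := mul_le_mul_of_nonneg_left this hz0
      _ = ‖z‖ := mul_one _
  have hR3 := remainder3 hc (v := w) (by linarith)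
  have hP := (hPLI n A g hc).2 w (fw A z t)
  -- exponentials
  have hexpm : Real.exp (-(m * t)) ≤ Real.exp (-(μ * t)) := by
    apply Real.exp_le_exp.2
    have := mul_le_mul_of_nonneg_right hμm ht
    linarith
  have hfw : ‖fw A z t‖ ≤ ‖z‖ * Real.exp (-(μ * t)) :=
    hU1.trans (mul_le_mul_of_nonneg_left hexpm hz0)
  have e1 : (inner ℂ (dual A V t) (-(g w)) : ℂ).re +
      (inner ℂ (ContinuousLinearMap.adjoint A (dual A V t)) w : ℂ).re +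
      (inner ℂ (dual A V t) (P2 g (fw A z t)) : ℂ).re =
      -((inner ℂ (dual A V t) ((g w - A w - P2 g w) + (P2 g w - P2 g (fw A z t))) : ℂ).re) := by
    rw [ContinuousLinearMap.adjoint_inner_left, inner_neg_right, inner_add_right, inner_sub_right,
      inner_sub_right, inner_sub_right]
    simp only [Complex.neg_re, Complex.sub_re, Complex.add_re]
    ring
  rw [e1, abs_neg]
  have h1 : ‖(g w - A w - P2 g w) + (P2 g w - P2 g (fw A z t))‖ ≤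
      768 * ‖A‖ * ‖w‖ ^ 3 + 4 * ‖A‖ * ((‖w‖ + ‖fw A z t‖) * ‖w - fw A z t‖) :=
    (norm_add_le _ _).trans (add_le_add hR3 hP)
  have h2 : ‖w‖ ^ 3 ≤ ‖z‖ ^ 3 * Real.exp (-(3 * μ) * t) := by
    calc ‖w‖ ^ 3 ≤ (‖z‖ * Real.exp (-(μ * t))) ^ 3 := pow_le_pow_left₀ (norm_nonneg _) hw1 3
      _ = ‖z‖ ^ 3 * Real.exp (-(3 * μ) * t) := by
        rw [mul_pow, ← Real.exp_nat_mul]
        congr 2
        push_cast; ring
  have h3 : (‖w‖ + ‖fw A z t‖) * ‖w - fw A z t‖ ≤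
      2 * K * ‖z‖ ^ 3 * Real.exp (-(m + μ) * t) := by
    calc (‖w‖ + ‖fw A z t‖) * ‖w - fw A z t‖ ≤
        (‖z‖ * Real.exp (-(μ * t)) + ‖z‖ * Real.exp (-(μ * t))) *
          (K * ‖z‖ ^ 2 * Real.exp (-(m * t))) := by
          apply mul_le_mul (add_le_add hw1 hfw) hw2 (norm_nonneg _) (by positivity)
      _ = 2 * K * ‖z‖ ^ 3 * Real.exp (-(m + μ) * t) := by
          have : Real.exp (-(m + μ) * t) = Real.exp (-(μ * t)) * Real.exp (-(m * t)) := by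
            rw [← Real.exp_add]; congr 1; ring
          rw [this]; ring
  have e2 : Real.exp (κ * t) * Real.exp (-(3 * μ) * t) ≤ Real.exp (-δ * t) := by
    rw [← Real.exp_add]
    apply Real.exp_le_exp.2
    nlinarith
  have e3 : Real.exp (κ * t) * Real.exp (-(m + μ) * t) ≤ Real.exp (-δ * t) := by
    rw [← Real.exp_add]
    apply Real.exp_le_exp.2
    nlinarith
  calc |(inner ℂ (dual A V t) ((g w - A w - P2 g w) + (P2 g w - P2 g (fw A z t))) : ℂ).re|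
      ≤ ‖(inner ℂ (dual A V t) ((g w - A w - P2 g w) + (P2 g w - P2 g (fw A z t))) : ℂ)‖ :=
        Complex.abs_re_le_norm _
    _ ≤ ‖dual A V t‖ * ‖(g w - A w - P2 g w) + (P2 g w - P2 g (fw A z t))‖ :=
        norm_inner_le_norm _ _
    _ ≤ (C * ‖V‖ * Real.exp (κ * t)) *
        (768 * ‖A‖ * ‖w‖ ^ 3 + 4 * ‖A‖ * ((‖w‖ + ‖fw A z t‖) * ‖w - fw A z t‖)) :=
        mul_le_mul hV1 h1 (norm_nonneg _) ((norm_nonneg _).trans hV1)
    _ ≤ (C * ‖V‖ * Real.exp (κ * t)) * (768 * ‖A‖ * (‖z‖ ^ 3 * Real.exp (-(3 * μ) * t)) +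
        4 * ‖A‖ * (2 * K * ‖z‖ ^ 3 * Real.exp (-(m + μ) * t))) := by
        apply mul_le_mul_of_nonneg_left _ ((norm_nonneg _).trans hV1)
        exact add_le_add (mul_le_mul_of_nonneg_left h2 (by positivity))
          (mul_le_mul_of_nonneg_left h3 (by positivity))
    _ = (C * ‖V‖ * 768 * ‖A‖ * ‖z‖ ^ 3) * (Real.exp (κ * t) * Real.exp (-(3 * μ) * t)) +
        (C * ‖V‖ * 8 * ‖A‖ * K * ‖z‖ ^ 3) * (Real.exp (κ * t) * Real.exp (-(m + μ) * t)) := by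
        ring
    _ ≤ (C * ‖V‖ * 768 * ‖A‖ * ‖z‖ ^ 3) * Real.exp (-δ * t) +
        (C * ‖V‖ * 8 * ‖A‖ * K * ‖z‖ ^ 3) * Real.exp (-δ * t) := by
        exact add_le_add (mul_le_mul_of_nonneg_left e2 (by positivity))
          (mul_le_mul_of_nonneg_left e3 (by positivity))
    _ = (C * ‖A‖ * (768 + 8 * K) * ‖V‖ * ‖z‖ ^ 3) * Real.exp (-δ * t) := by ring

/-- the integral of the error -/
theorem PF2_exp_int {D δ T : ℝ} (hD : 0 ≤ D) (hδ : 0 < δ) :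
    IntervalIntegrable (fun t : ℝ => D * Real.exp (-δ * t)) volume 0 T ∧
    ∫ t in (0 : ℝ)..T, D * Real.exp (-δ * t) ≤ D / δ := by
  have hcont : Continuous (fun t : ℝ => D * Real.exp (-δ * t)) := by fun_prop
  refine ⟨hcont.intervalIntegrable _ _, ?_⟩
  have h1 : ∀ t ∈ uIcc (0 : ℝ) T, HasDerivAt (fun t : ℝ => -(D / δ) * Real.exp (-δ * t))
      (D * Real.exp (-δ * t)) t := by
    intro t _
    have e1 : HasDerivAt (fun t : ℝ => Real.exp (-δ * t)) (Real.exp (-δ * t) * (-δ)) t := by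
      have := ((hasDerivAt_id t).const_mul (-δ)).exp
      simpa using this
    have e2 := e1.const_mul (-(D / δ))
    have e3 : -(D / δ) * (Real.exp (-δ * t) * (-δ)) = D * Real.exp (-δ * t) := by
      field_simp
    rw [e3] at e2
    exact e2
  rw [intervalIntegral.integral_eq_sub_of_hasDerivAt h1 (hcont.intervalIntegrable _ _)]
  have h2 : 0 ≤ D / δ * Real.exp (-δ * T) := by positivity
  rw [mul_zero, Real.exp_zero]
  linarith

theorem PF2_flow (hMEA : MEA_stmt) (hLIN : LIN_stmt) (hPLI : PLI_stmt) {A : E n →L[ℂ] E n}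
    {m κ C : ℝ} (hC : Cls A m κ C) {h v : E n → ℝ → E n} (hh : IsHerglotz A h)
    (hv : IsLoewner h v) {K μ δ : ℝ} (hK : 0 ≤ K)
    (hμ : 0 < μ) (hμm : μ ≤ m) (hδ0 : 0 < δ) (hδ1 : δ ≤ 3 * μ - κ) (hδ2 : δ ≤ m + μ - κ)
    {z : E n} (hz : ‖z‖ ≤ 1 / 10)
    (hest : ∀ t : ℝ, 0 ≤ t → ‖v z t‖ ≤ ‖z‖ * Real.exp (-(μ * t)) ∧
        ‖v z t - fw A z t‖ ≤ K * ‖z‖ ^ 2 * Real.exp (-(m * t)))
    (V : E n) {T : ℝ} (hT : 0 ≤ T) :
    |(inner ℂ (dual A V T) (v z T) : ℂ).re - (inner ℂ V z : ℂ).re +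
      ∫ t in (0 : ℝ)..T, (PF2_F A h z V t).re| ≤
      (C * ‖A‖ * (768 + 8 * K) * ‖V‖ * ‖z‖ ^ 3) / δ := by
  have hzb : z ∈ ball (0 : E n) 1 := by
    rw [mem_ball_zero_iff]; linarith
  have hC1 := hC.C1
  have hD : 0 ≤ C * ‖A‖ * (768 + 8 * K) * ‖V‖ * ‖z‖ ^ 3 := by positivity
  have hac := ac_reInner (dual_ac A V T) (hv.ac z hzb T hT)
  have h1 := hac.integral_deriv_eq_sub
  have hI1 := hac.intervalIntegrable_deriv
  have hI2 : IntervalIntegrable (fun t => (PF2_F A h z V t).re) volume 0 T := by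
    rw [intervalIntegrable_iff_integrableOn_Ioc_of_le hT]
    have h2 : IntegrableOn (PF2_F A h z V) (Ioc 0 T) :=
      (PF2_int hMEA hLIN hC hh z V).mono_set Ioc_subset_Ioi_self
    exact h2.re
  simp only [dual_zero, hv.init z hzb] at h1
  rw [← h1, ← intervalIntegral.integral_add hI1 hI2]
  obtain ⟨hE1, hE2⟩ := PF2_exp_int (T := T) hD hδ0
  refine le_trans ?_ hE2
  rw [← Real.norm_eq_abs]
  apply intervalIntegral.norm_integral_le_of_norm_le hT _ hE1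
  filter_upwards [hh.cara, hv.ode z hzb] with t hc hd ht
  have ht0 : 0 ≤ t := ht.1.le
  have h3 := hasDerivAt_reInner (dual_hasDerivAt A V t) (hd ht0)
  rw [h3.deriv, Real.norm_eq_abs]
  obtain ⟨h4, h5⟩ := hest t ht0
  exact PF2_point hLIN hPLI hC (hc ht0) hK hμ hμm hδ1 hδ2 ht0 hz V h4 h5

theorem PF2_lim (hMEA : MEA_stmt) (hLIN : LIN_stmt) (hPLI : PLI_stmt) {A : E n →L[ℂ] E n}
    {m κ C : ℝ} (hC : Cls A m κ C) {h v : E n → ℝ → E n} (hh : IsHerglotz A h)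
    (hv : IsLoewner h v) {K μ δ : ℝ} (hK : 0 ≤ K)
    (hμ : 0 < μ) (hμm : μ ≤ m) (hδ0 : 0 < δ) (hδ1 : δ ≤ 3 * μ - κ) (hδ2 : δ ≤ m + μ - κ)
    {z : E n} (hz : ‖z‖ ≤ 1 / 10)
    (hest : ∀ t : ℝ, 0 ≤ t → ‖v z t‖ ≤ ‖z‖ * Real.exp (-(μ * t)) ∧
        ‖v z t - fw A z t‖ ≤ K * ‖z‖ ^ 2 * Real.exp (-(m * t)))
    (V : E n) {y : E n}
    (hlim : Tendsto (fun t : ℝ => (NormedSpace.exp ((t : ℂ) • A)) (v z t)) atTop (𝓝 y)) :
    |(inner ℂ V y : ℂ).re - (inner ℂ V z : ℂ).re +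
      ∫ t in Ioi (0 : ℝ), (PF2_F A h z V t).re| ≤
      (C * ‖A‖ * (768 + 8 * K) * ‖V‖ * ‖z‖ ^ 3) / δ := by
  have hint : IntegrableOn (fun t => (PF2_F A h z V t).re) (Ioi 0) :=
    (PF2_int hMEA hLIN hC hh z V).re
  have h1 : Tendsto (fun T : ℝ => ∫ t in (0 : ℝ)..T, (PF2_F A h z V t).re) atTop
      (𝓝 (∫ t in Ioi (0 : ℝ), (PF2_F A h z V t).re)) :=
    intervalIntegral_tendsto_integral_Ioi 0 hint tendsto_id
  have h2 : Tendsto (fun T : ℝ => (inner ℂ (dual A V T) (v z T) : ℂ).re) atTop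
      (𝓝 (inner ℂ V y : ℂ).re) := by
    have h3 : (fun T : ℝ => (inner ℂ (dual A V T) (v z T) : ℂ).re) =
        fun T : ℝ => (inner ℂ V ((NormedSpace.exp ((T : ℂ) • A)) (v z T)) : ℂ).re := by
      funext T
      rw [dual_inner]
    rw [h3]
    exact (Complex.continuous_re.tendsto _).comp (((innerSL ℂ V).continuous.tendsto _).comp hlim)
  have h4 := ((h2.sub_const (inner ℂ V z : ℂ).re).add h1).abs
  refine le_of_tendsto h4 ?_
  filter_upwards [eventually_ge_atTop (0 : ℝ)] with T hT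
  exact PF2_flow hMEA hLIN hPLI hC hh hv hK hμ hμm hδ0 hδ1 hδ2 hz hest V hT

theorem PF2_re (hEXF : EXF_stmt) (hMEA : MEA_stmt) (hLIN : LIN_stmt) (hPLI : PLI_stmt)
    {A : E n →L[ℂ] E n} {m κ C : ℝ} (hC : Cls A m κ C) {h v : E n → ℝ → E n} {f : E n → E n}
    (hh : IsHerglotz A h) (hv : IsLoewner h v) (hfa : AnalyticOnNhd ℂ f (ball 0 1)) (hf0 : f 0 = 0)
    (hfd : fderiv ℂ f 0 = ContinuousLinearMap.id ℂ (E n))
    (hlim : ∀ z ∈ ball (0 : E n) 1,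
      Tendsto (fun t : ℝ => (NormedSpace.exp ((t : ℂ) • A)) (v z t)) atTop (𝓝 (f z)))
    (U V : E n) :
    (inner ℂ V (P2 f U) : ℂ).re = -∫ t in Ioi (0 : ℝ), (PF2_F A h U V t).re := by
  obtain ⟨r₀, K, μ, hr₀, hr₁, hK, hμ, hμm, hk1, hk3, hE⟩ := hEXF n A m κ C hC
  have hE' := hE h v hh hv
  obtain ⟨δ, hδ⟩ : ∃ δ : ℝ, δ = min (3 * μ - κ) (m + μ - κ) := ⟨_, rfl⟩
  have hδ0 : 0 < δ := by rw [hδ]; exact lt_min (by linarith) (by linarith)
  have hδ1 : δ ≤ 3 * μ - κ := by rw [hδ]; exact min_le_left _ _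
  have hδ2 : δ ≤ m + μ - κ := by rw [hδ]; exact min_le_right _ _
  obtain ⟨I, hI⟩ : ∃ I : ℝ, I = ∫ t in Ioi (0 : ℝ), (PF2_F A h U V t).re := ⟨_, rfl⟩
  obtain ⟨D, hD⟩ : ∃ D : ℝ, D = (C * ‖A‖ * (768 + 8 * K) * ‖V‖ * ‖U‖ ^ 3) / δ := ⟨_, rfl⟩
  -- Taylor expansion of `f`
  have hTa := taylor2 (hfa 0 (mem_ball_self one_pos)) hf0
  rw [hfd] at hTa
  obtain ⟨c, hc⟩ := hTa.bound
  have htend : Tendsto (fun r : ℝ => (r : ℂ) • U) (𝓝[>] 0) (𝓝 0) := by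
    have h1 : Continuous (fun r : ℝ => (r : ℂ) • U) := by fun_prop
    have h2 := h1.tendsto 0
    simp only [Complex.ofReal_zero, zero_smul] at h2
    exact h2.mono_left nhdsWithin_le_nhds
  have hev := htend.eventually hc
  -- small radii
  have hsm : ∀ᶠ r : ℝ in 𝓝[>] 0, ‖(r : ℂ) • U‖ ≤ r₀ := by
    have h1 := htend.norm
    rw [norm_zero] at h1
    filter_upwards [h1.eventually (gt_mem_nhds hr₀)] with r hr
    exact hr.le
  have key : ∀ᶠ r : ℝ in 𝓝[>] 0,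
      |(inner ℂ V (P2 f U) : ℂ).re + I| ≤ (D + ‖V‖ * (c * ‖U‖ ^ 3)) * r := by
    filter_upwards [hev, hsm, self_mem_nhdsWithin] with r h1 h2 h3
    have hr0 : 0 < r := h3
    have hzn : ‖(r : ℂ) • U‖ = r * ‖U‖ := by
      rw [norm_smul, Complex.norm_real, Real.norm_eq_abs, abs_of_pos hr0]
    have hzb : (r : ℂ) • U ∈ ball (0 : E n) 1 := by
      rw [mem_ball_zero_iff]; linarith
    have h4 := PF2_lim hMEA hLIN hPLI hC hh hv hK hμ hμm hδ0 hδ1 hδ2 (h2.trans hr₁)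
      (hE' ((r : ℂ) • U) h2) V (hlim _ hzb)
    have h5 : ∫ t in Ioi (0 : ℝ), (PF2_F A h ((r : ℂ) • U) V t).re = r ^ 2 * I := by
      rw [hI, ← integral_const_mul]
      congr 1
      funext t
      rw [PF2_F_smul, ← Complex.ofReal_pow, Complex.re_ofReal_mul]
    obtain ⟨R, hR⟩ : ∃ R : E n, R = f ((r : ℂ) • U) - (ContinuousLinearMap.id ℂ (E n))
      ((r : ℂ) • U) - P2 f ((r : ℂ) • U) := ⟨_, rfl⟩
    rw [← hR] at h1
    have h6 : ‖R‖ ≤ c * (r * ‖U‖) ^ 3 := by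
      rw [norm_pow, norm_norm, hzn] at h1
      exact h1
    have h7 : f ((r : ℂ) • U) = R + (r : ℂ) • U + (r : ℂ) ^ 2 • P2 f U := by
      rw [hR, P2_smul, ContinuousLinearMap.id_apply]; abel
    have h8 : (inner ℂ V (f ((r : ℂ) • U)) : ℂ).re = (inner ℂ V R : ℂ).re +
        (inner ℂ V ((r : ℂ) • U) : ℂ).re + r ^ 2 * (inner ℂ V (P2 f U) : ℂ).re := by
      rw [h7, inner_add_right, inner_add_right, inner_smul_right _ _ ((r : ℂ) ^ 2), Complex.add_re,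
        Complex.add_re, ← Complex.ofReal_pow, Complex.re_ofReal_mul]
    rw [h5, h8, hzn] at h4
    have h9 : |(inner ℂ V R : ℂ).re| ≤ ‖V‖ * (c * (r * ‖U‖) ^ 3) :=
      (Complex.abs_re_le_norm _).trans ((norm_inner_le_norm (𝕜 := ℂ) V R).trans
        (mul_le_mul_of_nonneg_left h6 (norm_nonneg _)))
    have h10 : (C * ‖A‖ * (768 + 8 * K) * ‖V‖ * (r * ‖U‖) ^ 3) / δ = D * r ^ 3 := by
      rw [hD]; ring
    rw [h10] at h4
    have h11 : r ^ 2 * |(inner ℂ V (P2 f U) : ℂ).re + I| ≤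
        r ^ 2 * ((D + ‖V‖ * (c * ‖U‖ ^ 3)) * r) := by
      rw [← abs_of_pos (show 0 < r ^ 2 by positivity), ← abs_mul,
        abs_of_pos (show 0 < r ^ 2 by positivity)]
      have e1 : r ^ 2 * ((inner ℂ V (P2 f U) : ℂ).re + I) =
          ((inner ℂ V R : ℂ).re + (inner ℂ V ((r : ℂ) • U) : ℂ).re +
            r ^ 2 * (inner ℂ V (P2 f U) : ℂ).re - (inner ℂ V ((r : ℂ) • U) : ℂ).re + r ^ 2 * I) -
          (inner ℂ V R : ℂ).re := by ring
      rw [e1]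
      refine (abs_sub _ _).trans ?_
      calc _ ≤ D * r ^ 3 + ‖V‖ * (c * (r * ‖U‖) ^ 3) := add_le_add h4 h9
        _ = r ^ 2 * ((D + ‖V‖ * (c * ‖U‖ ^ 3)) * r) := by ring
    exact le_of_mul_le_mul_left h11 (by positivity)
  have hl : Tendsto (fun r : ℝ => (D + ‖V‖ * (c * ‖U‖ ^ 3)) * r) (𝓝[>] 0) (𝓝 0) := by
    have h1 : Continuous (fun r : ℝ => (D + ‖V‖ * (c * ‖U‖ ^ 3)) * r) := by fun_prop
    have h2 := h1.tendsto 0
    rw [mul_zero] at h2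
    exact h2.mono_left nhdsWithin_le_nhds
  have h0 : |(inner ℂ V (P2 f U) : ℂ).re + I| ≤ 0 := ge_of_tendsto hl key
  have h1 := abs_nonpos_iff.1 h0
  rw [← hI]
  linarith

theorem PF2 (hEXF : EXF_stmt) (hMEA : MEA_stmt) (hLIN : LIN_stmt) (hPLI : PLI_stmt) :
    PF2_stmt := by
  intro n A m κ C hC h v f hh hv hfa hf0 hfd hlim U V
  have hint := PF2_int hMEA hLIN hC hh U V
  refine ⟨hint, ?_⟩
  have h1 := PF2_re hEXF hMEA hLIN hPLI hC hh hv hfa hf0 hfd hlim U V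
  have h2 := PF2_re hEXF hMEA hLIN hPLI hC hh hv hfa hf0 hfd hlim U (Complex.I • V)
  have h3 : (∫ t in Ioi (0 : ℝ), (PF2_F A h U V t)).re =
      ∫ t in Ioi (0 : ℝ), (PF2_F A h U V t).re := by
    have := (integral_re hint).symm
    exact this
  have h4 : (∫ t in Ioi (0 : ℝ), (PF2_F A h U V t)).im =
      ∫ t in Ioi (0 : ℝ), (PF2_F A h U V t).im := by
    have := (integral_im hint).symm
    exact this
  show (inner ℂ V (P2 f U) : ℂ) = -∫ t in Ioi (0 : ℝ), PF2_F A h U V t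
  apply Complex.ext
  · rw [Complex.neg_re, h3, h1]
  · rw [Complex.neg_im, h4]
    have e1 : (inner ℂ (Complex.I • V) (P2 f U) : ℂ).re = (inner ℂ V (P2 f U) : ℂ).im := by
      rw [inner_smul_left, Complex.conj_I]
      simp
    have e2 : ∀ t, (PF2_F A h U (Complex.I • V) t).re = (PF2_F A h U V t).im := by
      intro t
      rw [PF2_F_smulV, Complex.conj_I]
      simp
    rw [e1] at h2
    simp only [e2] at h2
    exact h2

end Pool.Agent.helper64.QF
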